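import Pool.Agent.T9h90.SP.Defs

set_option autoImplicit false

/-!
Small separable permutations: all of size at most 4 except `1203` and `2130` have a tree in one of the
classes `Good c`; layered permutations are in `Good true`.
-/

namespace Pool.Agent.T9h89.SP

open Pool.Agent.T9h90.SP

theorem size_pos (p : Sep) : 0 < p.size := by
  induction p with
  | one => exact Nat.one_pos
  | node c a b ha hb => exact Nat.add_pos_left ha _

/-- `Spine` as a computable test -/
def spineB : Sep → Bool
  | .one => true
  | .node _ .one a => spineB a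
  | .node _ (.node _ _ _) _ => false

/-- `Good` as a computable test -/
def goodB (c : Bool) : Sep → Bool
  | .one => true
  | .node d .one v => goodB c v || (d == c && goodB c v)
  | .node d (.node e a b) v => d == c && spineB (.node e a b) && goodB c v

theorem spineB_sound : ∀ p : Sep, spineB p = true → Spine p
  | .one, _ => Spine.one
  | .node c .one a, h => Spine.node c a (spineB_sound a h)
  | .node _ (.node _ _ _) _, h => by simp [spineB] at h

theorem goodB_sound (c : Bool) : ∀ p : Sep, goodB c p = true → Good c p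
  | .one, _ => Good.one
  | .node d .one v, h => by
    have hv : goodB c v = true := by
      simp only [goodB, Bool.or_eq_true, Bool.and_eq_true] at h
      rcases h with h | h
      · exact h
      · exact h.2
    have hg := goodB_sound c v hv
    by_cases hd : d = c
    · subst hd
      exact Good.same _ _ Spine.one hg
    · have hd' : d = !c := by
        cases d <;> cases c <;> simp_all
      subst hd'
      exact Good.opp _ hg
  | .node d (.node e a b) v, h => by
    simp only [goodB, Bool.and_eq_true, beq_iff_eq] at h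
    obtain ⟨⟨h1, h2⟩, h3⟩ := h
    subst h1
    exact Good.same _ _ (spineB_sound _ h2) (goodB_sound _ v h3)

/-- all nodes over two lists -/
def mk (A B : List Sep) : List Sep :=
  A.flatMap fun a => B.flatMap fun b => [Sep.node true a b, Sep.node false a b]

theorem mem_mk {A B : List Sep} {a b : Sep} (c : Bool) (ha : a ∈ A) (hb : b ∈ B) :
    Sep.node c a b ∈ mk A B := by
  unfold mk
  rw [List.mem_flatMap]
  refine ⟨a, ha, ?_⟩
  rw [List.mem_flatMap]
  refine ⟨b, hb, ?_⟩
  cases c <;> simp

/-- the trees of size `n ≤ 4` -/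
def L : ℕ → List Sep
  | 1 => [Sep.one]
  | 2 => mk [Sep.one] [Sep.one]
  | 3 => mk [Sep.one] (mk [Sep.one] [Sep.one]) ++ mk (mk [Sep.one] [Sep.one]) [Sep.one]
  | 4 => mk [Sep.one] (mk [Sep.one] (mk [Sep.one] [Sep.one]) ++ mk (mk [Sep.one] [Sep.one]) [Sep.one]) ++
      (mk (mk [Sep.one] [Sep.one]) (mk [Sep.one] [Sep.one]) ++
      mk (mk [Sep.one] (mk [Sep.one] [Sep.one]) ++ mk (mk [Sep.one] [Sep.one]) [Sep.one]) [Sep.one])
  | _ => []

theorem mem_L (p : Sep) (h : p.size ≤ 4) : p ∈ L p.size := by
  induction p with
  | one => exact List.mem_singleton.2 rfl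
  | node c a b iha ihb =>
    have ha := size_pos a
    have hb := size_pos b
    have hs : (Sep.node c a b).size = a.size + b.size := rfl
    rw [hs] at h ⊢
    have h1 := iha (by omega)
    have h2 := ihb (by omega)
    generalize a.size = m at *
    generalize b.size = n at *
    have hm : m ≤ 3 := by omega
    have hn : n ≤ 3 := by omega
    interval_cases m <;> interval_cases n <;> first | omega | skip
    · exact mem_mk c h1 h2
    · exact List.mem_append.2 (Or.inl (mem_mk c h1 h2))
    · exact List.mem_append.2 (Or.inl (mem_mk c h1 h2))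
    · exact List.mem_append.2 (Or.inr (mem_mk c h1 h2))
    · exact List.mem_append.2 (Or.inr (List.mem_append.2 (Or.inl (mem_mk c h1 h2))))
    · exact List.mem_append.2 (Or.inr (List.mem_append.2 (Or.inr (mem_mk c h1 h2))))

/-- the test -/
def test (p : Sep) : Bool :=
  (p.size == 4 && p.val 0 == 1 && p.val 1 == 2 && p.val 2 == 0 && p.val 3 == 3) ||
  (p.size == 4 && p.val 0 == 2 && p.val 1 == 1 && p.val 2 == 3 && p.val 3 == 0) ||
  (L p.size).any fun q => (goodB true q || goodB false q) && q.size == p.size &&
    (List.range p.size).all fun i => q.val i == p.val i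

theorem test_all : ((L 1 ++ L 2 ++ L 3 ++ L 4).all fun p => test p) = true := by
  decide +kernel

theorem ex4 (p : Sep) (h : p.size ≤ 4)
    (h1 : ¬ (p.size = 4 ∧ p.val 0 = 1 ∧ p.val 1 = 2 ∧ p.val 2 = 0 ∧ p.val 3 = 3))
    (h2 : ¬ (p.size = 4 ∧ p.val 0 = 2 ∧ p.val 1 = 1 ∧ p.val 2 = 3 ∧ p.val 3 = 0)) :
    ∃ (c : Bool) (q : Sep), q.size = p.size ∧ (∀ i, i < p.size → q.val i = p.val i) ∧ Good c q := by
  have hp := size_pos p
  have hmem : p ∈ L 1 ++ L 2 ++ L 3 ++ L 4 := by
    have h3 := mem_L p h
    simp only [List.mem_append]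
    generalize p.size = n at *
    interval_cases n
    · exact Or.inl (Or.inl (Or.inl h3))
    · exact Or.inl (Or.inl (Or.inr h3))
    · exact Or.inl (Or.inr h3)
    · exact Or.inr h3
  have h4 := List.all_eq_true.1 test_all p hmem
  unfold test at h4
  simp only [Bool.or_eq_true, Bool.and_eq_true, beq_iff_eq, List.any_eq_true, List.all_eq_true,
    List.mem_range] at h4
  rcases h4 with (h5 | h5) | h5
  · exact absurd ⟨h5.1.1.1.1, h5.1.1.1.2, h5.1.1.2, h5.1.2, h5.2⟩ h1
  · exact absurd ⟨h5.1.1.1.1, h5.1.1.1.2, h5.1.1.2, h5.1.2, h5.2⟩ h2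
  · obtain ⟨q, -, ⟨hg, hs⟩, hv⟩ := h5
    rcases hg with hg | hg
    · exact ⟨true, q, hs, hv, goodB_sound true q hg⟩
    · exact ⟨false, q, hs, hv, goodB_sound false q hg⟩

/-- the decreasing permutation of length `n + 1` -/
def dec : ℕ → Sep
  | 0 => .one
  | n + 1 => .node false .one (dec n)

/-- the layered permutation: direct sum of decreasing permutations of the lengths `n + 1`, `n` in the list,
and a last block -/
def lay (m : ℕ) : List ℕ → Sep
  | [] => dec m
  | n :: l => .node true (dec n) (lay m l)

theorem spine_dec : ∀ n, Spine (dec n)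
  | 0 => Spine.one
  | n + 1 => Spine.node false _ (spine_dec n)

theorem good_dec : ∀ n, Good true (dec n)
  | 0 => Good.one
  | n + 1 => Good.opp (c := true) _ (good_dec n)

theorem size_dec : ∀ n, (dec n).size = n + 1
  | 0 => rfl
  | n + 1 => by
    change 1 + (dec n).size = n + 1 + 1
    rw [size_dec n]
    omega

theorem val_dec : ∀ n i, i ≤ n → (dec n).val i = n - i
  | 0, i, h => by
    change 0 = 0 - i
    omega
  | n + 1, i, h => by
    change (if i < Sep.size .one then (dec n).size + Sep.val .one i else (dec n).val (i - Sep.size .one)) = _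
    have h1 : Sep.size .one = 1 := rfl
    rw [h1]
    split_ifs with h2
    · rw [size_dec]
      change n + 1 + 0 = n + 1 - i
      omega
    · rw [val_dec n (i - 1) (by omega)]
      omega

theorem good_lay (m : ℕ) : ∀ l : List ℕ, Good true (lay m l)
  | [] => good_dec m
  | n :: l => Good.same _ _ (spine_dec n) (good_lay m l)

end Pool.Agent.T9h89.SP
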